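import Pool.Agent.H43.Dick3

open MeasureTheory ProbabilityTheory Set Filter Topology Pool.Agent.H43.Dick

namespace Pool.Agent.Results.MP_37d573_pr.Jump

/-- `I n` is the indicator with index `n + 1`. -/
theorem result (Ω : Type) [MeasurableSpace Ω] (P : Measure Ω) [IsProbabilityMeasure P]
    (I : ℕ → Ω → ℝ) (h1 : ∀ n, Measurable (I n)) (h2 : iIndepFun I P)
    (h3 : ∀ n ω, I n ω = 0 ∨ I n ω = 1)
    (h4 : ∀ n : ℕ, P {ω | I n ω = 1} = 1 / ((n : ENNReal) + 1)) (f : ℝ → ℝ)
    (hf : P.map (fun ω => ∑' n : ℕ, I n ω / ((n : ℝ) + 1)) =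
      volume.withDensity fun x => ENNReal.ofReal (f x)) :
    ¬ ContinuousAt f (3 / 2) := by
  intro hc
  have h : Rec P I := ⟨h1, h2, h3, h4⟩
  obtain ⟨ρ, hρ⟩ := exists_dk
  have hm : ∀ s, MeasurableSet s → P (S I ⁻¹' s) = ∫⁻ x in s, ENNReal.ofReal (f x) := fun s hs => by
    rw [← Measure.map_apply h.S_meas hs, ← withDensity_apply _ hs, ← hf]; rfl
  have at0 : ∀ y, P (S I ⁻¹' {y}) = 0 := fun y => by rw [hm _ (by simp)]; simp
  set Z := ∫ u, R ρ u
  have hZ : 1 ≤ Z := hρ.Z_ge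
  have hC := C_pos
  obtain ⟨k, hk⟩ := exists_nat_ge (64 * C + 1)
  have k1 : 1 ≤ k := by exact_mod_cast (show (1 : ℝ) ≤ k by linarith)
  obtain ⟨d, hd, hdf⟩ := Metric.continuousAt_iff.1 hc (1 / (8 * Z)) (by positivity)
  set e := min d (1 / (4 * ((k : ℝ) + 1) ^ 2))
  have he : 0 < e := lt_min hd (by positivity)
  have e1 : e ≤ d := min_le_left _ _
  have e2 : ((k : ℝ) + 1) ^ 2 * e ≤ 1 / 4 := by
    have : e ≤ 1 / (4 * ((k : ℝ) + 1) ^ 2) := min_le_right _ _
    rw [le_div_iff₀ (by positivity)] at this; linarith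
  have e3 : 8 * C / (k + 1) ≤ 1 / 8 := by rw [div_le_iff₀ (by positivity)]; linarith
  have t := ((h.main hρ (3 / 2 + e) he).2 at0).sub ((h.main hρ (3 / 2 + e - e) he).2 at0)
  have a1 : e / 2 ≤ _ := ge_of_tendsto t (by
    filter_upwards [eventually_ge_atTop k] with j hj
    have i1 := (hρ.B_int e j).1
    have i2 : IntervalIntegrable (fun x => B ρ j (x - e)) volume (3 / 2 + e - e) (3 / 2 + e) := by
      simpa using (i1 (3 / 2 + e - e - e) (3 / 2 + e - e)).comp_sub_right e
    rw [← intervalIntegral.integral_comp_sub_right (B ρ j) e,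
      ← intervalIntegral.integral_sub (i1 _ _) i2]
    refine le_of_eq_of_le ?_ (intervalIntegral.integral_mono_on_of_le_Ioo (f := fun _ => 1 / 2)
      (by linarith) intervalIntegrable_const ((i1 _ _).sub i2) fun x hx => ?_)
    · simp; ring
    · have := hρ.jump k1 (x := x) (e := e) (by linarith [hx.1]) hx.2
      have := (hρ.B_close hj x).2
      have := (hρ.B_close hj (x - e)).1
      linarith)
  simp only [add_sub_cancel_right] at a1
  have b1 : P.real (S I ⁻¹' Ioo (3 / 2) (3 / 2 + e)) ≤ max (f (3 / 2) + 1 / (8 * Z)) 0 * e := by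
    refine ENNReal.toReal_le_of_le_ofReal (by positivity) ?_
    rw [hm _ measurableSet_Ioo]
    refine (setLIntegral_mono' (g := fun _ => ENNReal.ofReal (max (f (3 / 2) + 1 / (8 * Z)) 0))
      measurableSet_Ioo fun x hx => ENNReal.ofReal_le_ofReal (le_max_of_le_left ?_)).trans_eq ?_
    · have := hdf (x := x) (by rw [Real.dist_eq, abs_lt]; constructor <;> linarith [hx.1, hx.2])
      rw [Real.dist_eq, abs_lt] at this; linarith
    · rw [setLIntegral_const, ENNReal.ofReal_mul (le_max_right _ _)]; simp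
  have b2 : max (f (3 / 2) - 1 / (8 * Z)) 0 * e ≤ P.real (S I ⁻¹' Ioo (3 / 2 - e) (3 / 2)) := by
    refine (ENNReal.ofReal_le_iff_le_toReal (measure_ne_top _ _)).1 ?_
    rw [hm _ measurableSet_Ioo]
    refine le_of_eq_of_le ?_ (setLIntegral_mono' (f := fun _ => ENNReal.ofReal (f (3 / 2) - 1 / (8 * Z)))
      measurableSet_Ioo fun x hx => ENNReal.ofReal_le_ofReal ?_)
    · rw [setLIntegral_const, ENNReal.ofReal_mul (le_max_right _ _), ENNReal.ofReal_max]; simp
    · have := hdf (x := x) (by rw [Real.dist_eq, abs_lt]; constructor <;> linarith [hx.1, hx.2])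
      rw [Real.dist_eq, abs_lt] at this; linarith
  have b3 : max (f (3 / 2) + 1 / (8 * Z)) 0 - max (f (3 / 2) - 1 / (8 * Z)) 0 ≤ 2 * (1 / (8 * Z)) := by
    have := abs_max_sub_max_le_abs (f (3 / 2) + 1 / (8 * Z)) (f (3 / 2) - 1 / (8 * Z)) 0
    rw [abs_of_nonneg (a := _ + _ - _) (by have : 0 < 1 / (8 * Z) := by positivity
                                           linarith)] at this
    linarith [le_abs_self (max (f (3 / 2) + 1 / (8 * Z)) 0 - max (f (3 / 2) - 1 / (8 * Z)) 0)]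
  have b4 := mul_le_mul_of_nonneg_left (mul_le_mul_of_nonneg_right b3 he.le) (zero_le_one.trans hZ)
  have b5 : Z * (2 * (1 / (8 * Z)) * e) = e / 4 := by field_simp; norm_num
  have b6 := mul_le_mul_of_nonneg_left (sub_le_sub b1 b2) (zero_le_one.trans hZ)
  linarith

end Pool.Agent.Results.MP_37d573_pr.Jump
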